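import Mathlib

/-!
# Lemma K

Items `i` with costs `0 < k i < c₀`, total cost at most `p c₀`; a weighted family of sets `X j` of at
most `p` items such that for every set `Z` of items of cost `< c₀` the sets `X j` which meet `Z` have
total weight at most `1`.  Then `∑ w j |X j| ≤ 2 p`.
-/

namespace Pool.Agent.Helper7.LK

open Finset

variable {ι J : Type*} [DecidableEq ι]

/-- total weight of the `j ∈ S` such that `X j` meets `Z` -/
noncomputable def hit (X : J → Finset ι) (w : J → ℝ) (S : Finset J) (Z : Finset ι) : ℝ :=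
  ∑ j ∈ S with (X j ∩ Z).Nonempty, w j

/-- `∑ w j |X j ∩ Q|` -/
noncomputable def tot (X : J → Finset ι) (w : J → ℝ) (S : Finset J) (Q : Finset ι) : ℝ :=
  ∑ j ∈ S, w j * ((X j ∩ Q).card : ℝ)

lemma ne_single (A : Finset ι) (i : ι) : (A ∩ {i}).Nonempty ↔ i ∈ A := by
  constructor
  · rintro ⟨a, ha⟩
    rw [mem_inter, mem_singleton] at ha
    exact ha.2 ▸ ha.1
  · intro h
    exact ⟨i, by simp [h]⟩

lemma ne_insert (A Z : Finset ι) (i : ι) :
    (A ∩ insert i Z).Nonempty ↔ i ∈ A ∨ (A ∩ Z).Nonempty := by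
  constructor
  · rintro ⟨a, ha⟩
    rw [mem_inter, mem_insert] at ha
    rcases ha.2 with h | h
    · exact Or.inl (h ▸ ha.1)
    · exact Or.inr ⟨a, mem_inter.2 ⟨ha.1, h⟩⟩
  · rintro (h | ⟨a, ha⟩)
    · exact ⟨i, by simp [h]⟩
    · rw [mem_inter] at ha
      exact ⟨a, by simp [ha.1, ha.2]⟩

lemma card_erase_eq {Q : Finset ι} {i : ι} (hi : i ∈ Q) (A : Finset ι) :
    ((A ∩ Q).card : ℝ) = ((A ∩ Q.erase i).card : ℝ) + if i ∈ A then 1 else 0 := by
  have h : A ∩ Q.erase i = (A ∩ Q).erase i := by
    ext a; simp only [mem_inter, mem_erase]; tauto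
  rw [h]
  by_cases hA : i ∈ A
  · rw [if_pos hA, card_erase_of_mem (mem_inter.2 ⟨hA, hi⟩)]
    have : 1 ≤ (A ∩ Q).card := card_pos.2 ⟨i, mem_inter.2 ⟨hA, hi⟩⟩
    push_cast [Nat.cast_sub this]; ring
  · rw [if_neg hA, erase_eq_of_notMem (fun h => hA (mem_inter.1 h).1), add_zero]

lemma hit_single (X : J → Finset ι) (w : J → ℝ) (S : Finset J) (i : ι) :
    hit X w S {i} = ∑ j ∈ S, w j * (if i ∈ X j then 1 else 0) := by
  unfold hit
  rw [sum_filter]
  refine sum_congr rfl fun j _ => ?_
  by_cases h : i ∈ X j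
  · rw [if_pos ((ne_single _ _).2 h), if_pos h, mul_one]
  · rw [if_neg (fun h' => h ((ne_single _ _).1 h')), if_neg h, mul_zero]

lemma tot_erase (X : J → Finset ι) (w : J → ℝ) (S : Finset J) {Q : Finset ι} {i : ι}
    (hi : i ∈ Q) : tot X w S Q = hit X w S {i} + tot X w S (Q.erase i) := by
  rw [hit_single]
  unfold tot
  rw [← sum_add_distrib]
  refine sum_congr rfl fun j _ => ?_
  rw [card_erase_eq hi]; ring

lemma tot_le_card (X : J → Finset ι) (w : J → ℝ) (S : Finset J) {τ : ℝ} :
    ∀ (n : ℕ) (Q : Finset ι), Q.card = n → (∀ i ∈ Q, hit X w S {i} ≤ τ) →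
      tot X w S Q ≤ τ * n := by
  intro n
  induction n with
  | zero =>
    intro Q hQ _
    rw [card_eq_zero.1 hQ]
    simp [tot]
  | succ n ih =>
    intro Q hQ h
    obtain ⟨i, hi⟩ : Q.Nonempty := card_pos.1 (by omega)
    rw [tot_erase X w S hi]
    have h1 := ih (Q.erase i) (by rw [card_erase_of_mem hi, hQ]; rfl)
      (fun a ha => h a (mem_of_mem_erase ha))
    have h2 := h i hi
    push_cast
    linarith

lemma hit_insert (X : J → Finset ι) (w : J → ℝ) (S : Finset J) (Z : Finset ι) (i : ι) :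
    hit X w S (insert i Z) = hit X w S {i} + hit X w (S.filter fun j => i ∉ X j) Z := by
  unfold hit
  rw [filter_filter, sum_filter, sum_filter, sum_filter, ← sum_add_distrib]
  refine sum_congr rfl fun j _ => ?_
  by_cases h : i ∈ X j
  · rw [if_pos ((ne_insert _ _ _).2 (Or.inl h)), if_pos ((ne_single _ _).2 h),
      if_neg (fun h' => h'.1 h), add_zero]
  · rw [if_neg (fun h' => h ((ne_single _ _).1 h')), zero_add]
    by_cases h2 : (X j ∩ Z).Nonempty
    · rw [if_pos ((ne_insert _ _ _).2 (Or.inr h2)), if_pos ⟨h, h2⟩]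
    · rw [if_neg (fun h' => ((ne_insert _ _ _).1 h').elim h h2), if_neg (fun h' => h2 h'.2)]

lemma tot_split (X : J → Finset ι) (w : J → ℝ) (hw : ∀ j, 0 ≤ w j) (S : Finset J)
    {Q : Finset ι} {i : ι} (hi : i ∈ Q) {p : ℕ} (hp : ∀ j ∈ S, (X j ∩ Q).card ≤ p) :
    tot X w S Q ≤ p * hit X w S {i} + tot X w (S.filter fun j => i ∉ X j) (Q.erase i) := by
  rw [hit_single]
  unfold tot
  rw [sum_filter, mul_sum, ← sum_add_distrib]
  refine sum_le_sum fun j hj => ?_
  by_cases h : i ∈ X j
  · rw [if_pos h, if_neg (fun h' => h' h)]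
    have h1 : ((X j ∩ Q).card : ℝ) ≤ p := by exact_mod_cast hp j hj
    nlinarith [hw j]
  · rw [if_neg h, if_pos h, card_erase_eq hi, if_neg h]
    linarith

lemma hit_nonneg (X : J → Finset ι) (w : J → ℝ) (hw : ∀ j, 0 ≤ w j) (S : Finset J)
    (Z : Finset ι) : 0 ≤ hit X w S Z := sum_nonneg fun j _ => hw j

/-- the number of items of cost `≥ x` after deleting an item -/
lemma cnt_erase {Q : Finset ι} {i : ι} (hi : i ∈ Q) (P : ι → Prop) [DecidablePred P] :
    (((Q.erase i).filter P).card : ℝ) = ((Q.filter P).card : ℝ) - if P i then 1 else 0 := by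
  rw [filter_erase]
  by_cases h : P i
  · rw [if_pos h, card_erase_of_mem (mem_filter.2 ⟨hi, h⟩)]
    have : 1 ≤ (Q.filter P).card := card_pos.2 ⟨i, mem_filter.2 ⟨hi, h⟩⟩
    push_cast [Nat.cast_sub this]; ring
  · rw [if_neg h, erase_eq_of_notMem (fun h' => h (mem_filter.1 h').2), sub_zero]

lemma sum_erase' {Q : Finset ι} {i : ι} (hi : i ∈ Q) (f : ι → ℝ) :
    ∑ a ∈ Q.erase i, f a = ∑ a ∈ Q, f a - f i := by
  rw [← add_sum_erase Q f hi]; ring

/-- cost of the items of cost `≤ x` after deleting an item -/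
lemma small_erase {Q : Finset ι} {i : ι} (hi : i ∈ Q) (k : ι → ℝ) (x : ℝ) :
    ∑ a ∈ (Q.erase i).filter (fun a => k a ≤ x), k a
      = ∑ a ∈ Q.filter (fun a => k a ≤ x), k a - if k i ≤ x then k i else 0 := by
  rw [sum_filter, sum_filter, sum_erase' hi]

theorem state (k : ι → ℝ) (hk : ∀ i, 0 < k i) {p : ℕ} (hp : 1 ≤ p) {c0 x b : ℝ}
    (hb : (p : ℝ) ≤ b) (X : J → Finset ι) (w : J → ℝ) (hw : ∀ j, 0 ≤ w j) :
    ∀ (n : ℕ) (Q : Finset ι) (S : Finset J) (c C τ m : ℝ), Q.card = n → p ≤ n →
      (∀ j ∈ S, (X j ∩ Q).card ≤ p) → x < c → c ≤ c0 → (∀ i ∈ Q, k i < c) → 0 ≤ τ →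
      (∀ Z ⊆ Q, ∑ i ∈ Z, k i < c → hit X w S Z ≤ τ) →
      0 ≤ m → (∀ i ∈ Q, m ≤ k i) → m ≤ x →
      C + (c0 - x) * ((Q.filter fun i => x < k i).card : ℝ) +
        ∑ i ∈ Q.filter (fun i => k i ≤ x), k i ≤ 2 * p * (c0 - x) →
      C + ∑ i ∈ Q, k i + (b - ((Q.filter fun i => x ≤ k i).card : ℝ)) * (x - m) ≤ p * c0 →
      ((Q.filter fun i => x ≤ k i).card : ℝ) ≤ b →
      tot X w S Q ≤ τ * (p + (p * (c0 - x) - C) / (c - x)) := by
  intro n
  induction n with
  | zero => intro Q S c C τ m hQ hpn; omega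
  | succ n ih =>
    intro Q S c C τ m hQ hpn hX hxc hcc hfit hτ hZ hm0 hm hmx h1 h2 h3
    have hcx : 0 < c - x := by linarith
    -- single items
    have hone : ∀ i ∈ Q, hit X w S {i} ≤ τ := by
      intro i hi
      exact hZ {i} (singleton_subset_iff.2 hi) (by rw [sum_singleton]; exact hfit i hi)
    -- lower bound for the total cost
    have hsum : ∀ m' : ℝ, (∀ i ∈ Q, m' ≤ k i) → m' ≤ x →
        m' * (Q.card : ℝ) + (x - m') * ((Q.filter fun i => x ≤ k i).card : ℝ)
          ≤ ∑ i ∈ Q, k i := by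
      intro m' hm' hmx'
      have e1 : (x - m') * ((Q.filter fun i => x ≤ k i).card : ℝ)
          = ∑ i ∈ Q, if x ≤ k i then x - m' else 0 := by
        rw [← sum_filter, sum_const, nsmul_eq_mul]; ring
      have e2 : m' * (Q.card : ℝ) = ∑ i ∈ Q, m' := by
        rw [sum_const, nsmul_eq_mul]; ring
      rw [e1, e2, ← sum_add_distrib]
      refine sum_le_sum fun i hi => ?_
      by_cases h : x ≤ k i
      · rw [if_pos h]; linarith
      · rw [if_neg h]; linarith [hm' i hi]
    have hpn' : (p : ℝ) ≤ (Q.card : ℝ) := by rw [hQ]; exact_mod_cast hpn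
    -- the remaining budget is nonnegative
    have hB : 0 ≤ p * (c0 - x) - C := by
      have e1 := hsum m hm hmx
      have e2 : m * (p : ℝ) ≤ m * (Q.card : ℝ) := mul_le_mul_of_nonneg_left hpn' hm0
      have e3 : (p : ℝ) * (x - m) ≤ b * (x - m) := mul_le_mul_of_nonneg_right hb (by linarith)
      nlinarith
    have hdiv : 0 ≤ (p * (c0 - x) - C) / (c - x) := div_nonneg hB hcx.le
    -- stopping
    have hstop : (c - x) * ((Q.card : ℝ) - p) ≤ p * (c0 - x) - C →
        tot X w S Q ≤ τ * (p + (p * (c0 - x) - C) / (c - x)) := by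
      intro h
      have e1 := tot_le_card X w S Q.card Q rfl hone
      have e2 : (Q.card : ℝ) - p ≤ (p * (c0 - x) - C) / (c - x) := by
        rw [le_div_iff₀ hcx]; linarith
      refine e1.trans ?_
      exact mul_le_mul_of_nonneg_left (by linarith) hτ
    rcases Nat.lt_or_ge n p with hnp | hnp
    · -- exactly `p` items
      apply hstop
      have : (Q.card : ℝ) = p := by rw [hQ]; exact_mod_cast (by omega : n + 1 = p)
      rw [this, sub_self, mul_zero]; exact hB
    -- the smallest item
    obtain ⟨i, hi, hmin⟩ := Q.exists_min_image k (card_pos.1 (by omega))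
    have hi0 : 0 ≤ k i := (hk i).le
    have hcard : (Q.erase i).card = n := by rw [card_erase_of_mem hi, hQ]; rfl
    rcases lt_or_ge x (k i) with hxi | hix
    · -- all items are larger than `x`
      apply hstop
      have e1 : (Q.filter fun i => x < k i) = Q :=
        filter_true_of_mem fun a ha => lt_of_lt_of_le hxi (hmin a ha)
      have e2 : (Q.filter fun i => k i ≤ x) = ∅ :=
        filter_false_of_mem fun a ha => not_le.2 (lt_of_lt_of_le hxi (hmin a ha))
      rw [e1, e2, sum_empty, add_zero] at h1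
      have e3 : (c - x) * ((Q.card : ℝ) - p) ≤ (c0 - x) * ((Q.card : ℝ) - p) :=
        mul_le_mul_of_nonneg_right (by linarith) (by linarith)
      nlinarith
    -- raise the lower bound
    have hmi : m ≤ k i := hm i hi
    have h2' : C + ∑ i ∈ Q, k i + (b - ((Q.filter fun i => x ≤ k i).card : ℝ)) * (x - k i)
        ≤ p * c0 := by
      have : (b - ((Q.filter fun i => x ≤ k i).card : ℝ)) * (x - k i)
          ≤ (b - ((Q.filter fun i => x ≤ k i).card : ℝ)) * (x - m) :=
        mul_le_mul_of_nonneg_left (by linarith) (by linarith)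
      linarith
    have hn0 : n ≠ 0 := by omega
    by_cases hj : ∃ j ∈ Q.erase i, c ≤ k j + k i
    · -- remove an incompatible item
      obtain ⟨j, hj, hcj⟩ := hj
      have hjQ : j ∈ Q := mem_of_mem_erase hj
      have hcardj : (Q.erase j).card = n := by rw [card_erase_of_mem hjQ, hQ]; rfl
      have hsub : Q.erase j ⊆ Q := erase_subset _ _
      have key := ih (Q.erase j) S c (C + (c - x)) τ (k i) hcardj hnp
        (fun a ha => (card_le_card (inter_subset_inter_left hsub)).trans (hX a ha)) hxc hcc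
        (fun a ha => hfit a (hsub ha)) hτ (fun Z hZs => hZ Z (hZs.trans hsub)) hi0
        (fun a ha => hmin a (hsub ha)) hix
        (by
          rw [cnt_erase hjQ, small_erase hjQ]
          by_cases hjx : k j ≤ x
          · rw [if_neg (not_lt.2 hjx), if_pos hjx]
            nlinarith
          · rw [if_pos (not_le.1 hjx), if_neg hjx]
            nlinarith)
        (by
          rw [cnt_erase hjQ, sum_erase' hjQ]
          by_cases hjx : x ≤ k j
          · rw [if_pos hjx]
            nlinarith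
          · rw [if_neg hjx]
            nlinarith)
        (by
          rw [cnt_erase hjQ]
          by_cases hjx : x ≤ k j
          · rw [if_pos hjx]; linarith
          · rw [if_neg hjx]; linarith)
      rw [tot_erase X w S hjQ]
      have e1 := hone j hjQ
      have e2 : τ * (p + (p * (c0 - x) - (C + (c - x))) / (c - x))
          = τ * (p + (p * (c0 - x) - C) / (c - x)) - τ := by
        field_simp; ring
      linarith
    push Not at hj
    rcases le_or_gt (c - k i) x with hci | hci
    · -- all items are smaller than `x`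
      apply hstop
      obtain ⟨j, hj'⟩ : (Q.erase i).Nonempty := card_pos.1 (by omega)
      have hlt : ∀ a ∈ Q, k a < x := by
        intro a ha
        by_cases hai : a = i
        · rw [hai]
          have := hj j hj'
          have := hmin j (mem_of_mem_erase hj')
          linarith
        · have := hj a (mem_erase.2 ⟨hai, ha⟩)
          linarith
      have e1 : (Q.filter fun i => x ≤ k i) = ∅ :=
        filter_false_of_mem fun a ha => not_le.2 (hlt a ha)
      have e0 := hsum (k i) hmin hix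
      rw [e1] at h2' e0
      simp only [card_empty, Nat.cast_zero, sub_zero, mul_zero, add_zero] at h2' e0
      have e3 : (p : ℝ) * (x - k i) ≤ b * (x - k i) := mul_le_mul_of_nonneg_right hb (by linarith)
      have e4 : (c - x) * ((Q.card : ℝ) - p) ≤ k i * ((Q.card : ℝ) - p) :=
        mul_le_mul_of_nonneg_right (by linarith) (by linarith)
      nlinarith
    -- process the smallest item
    set θ := hit X w S {i} with hθ
    have hθ0 : 0 ≤ θ := hit_nonneg X w hw S _
    have hθ1 : θ ≤ τ := hone i hi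
    have hsub : Q.erase i ⊆ Q := erase_subset _ _
    rcases le_total (θ * (c - x)) (τ * k i) with hs | hs
    · -- skip
      have key := ih (Q.erase i) S c (C + k i) τ (k i) hcard hnp
        (fun a ha => (card_le_card (inter_subset_inter_left hsub)).trans (hX a ha)) hxc hcc
        (fun a ha => hfit a (hsub ha)) hτ (fun Z hZs => hZ Z (hZs.trans hsub)) hi0
        (fun a ha => hmin a (hsub ha)) hix
        (by
          rw [cnt_erase hi, small_erase hi, if_neg (not_lt.2 hix), if_pos hix]
          linarith)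
        (by
          rw [cnt_erase hi, sum_erase' hi]
          by_cases hjx : x ≤ k i
          · have : x = k i := le_antisymm hjx hix
            rw [← this] at h2' ⊢
            rw [sub_self, mul_zero] at h2' ⊢
            linarith
          · rw [if_neg hjx]
            linarith)
        (by
          rw [cnt_erase hi]
          by_cases hjx : x ≤ k i
          · rw [if_pos hjx]; linarith
          · rw [if_neg hjx]; linarith)
      rw [tot_erase X w S hi]
      have e2 : τ * (p + (p * (c0 - x) - (C + k i)) / (c - x))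
          = τ * (p + (p * (c0 - x) - C) / (c - x)) - τ * k i / (c - x) := by
        field_simp; ring
      have e3 : θ ≤ τ * k i / (c - x) := by rw [le_div_iff₀ hcx]; exact hs
      linarith
    · -- contract
      have hcx' : 0 < c - k i - x := by linarith
      have key := ih (Q.erase i) (S.filter fun j => i ∉ X j) (c - k i) C (τ - θ) (k i) hcard hnp
        (fun a ha => (card_le_card (inter_subset_inter_left hsub)).trans
          (hX a (mem_filter.1 ha).1)) (by linarith) (by linarith)
        (fun a ha => by have := hj a ha; linarith) (by linarith)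
        (fun Z hZs hcost => by
          have hiZ : i ∉ Z := fun h => (mem_erase.1 (hZs h)).1 rfl
          have := hZ (insert i Z) (insert_subset hi (hZs.trans hsub))
            (by rw [sum_insert hiZ]; linarith)
          rw [hit_insert] at this
          linarith) hi0
        (fun a ha => hmin a (hsub ha)) hix
        (by
          rw [cnt_erase hi, small_erase hi, if_neg (not_lt.2 hix), if_pos hix]
          linarith)
        (by
          rw [cnt_erase hi, sum_erase' hi]
          by_cases hjx : x ≤ k i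
          · have : x = k i := le_antisymm hjx hix
            rw [← this] at h2' ⊢
            rw [sub_self, mul_zero] at h2' ⊢
            linarith
          · rw [if_neg hjx]
            linarith)
        (by
          rw [cnt_erase hi]
          by_cases hjx : x ≤ k i
          · rw [if_pos hjx]; linarith
          · rw [if_neg hjx]; linarith)
      have e0 := tot_split X w hw S hi hX
      rw [← hθ] at e0
      have e3 : (τ - θ) * ((p * (c0 - x) - C) / (c - k i - x))
          ≤ τ * ((p * (c0 - x) - C) / (c - x)) := by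
        rw [mul_div_assoc', mul_div_assoc', div_le_div_iff₀ hcx' hcx]
        nlinarith [mul_le_mul_of_nonneg_left hs hB]
      nlinarith

/-- **Lemma K**, real costs. -/
theorem lemmaK (Q : Finset ι) (k : ι → ℝ) (p : ℕ) (c0 : ℝ) (hk : ∀ i ∈ Q, 0 < k i)
    (hfit : ∀ i ∈ Q, k i < c0) (hK : ∑ i ∈ Q, k i ≤ p * c0)
    (S : Finset J) (X : J → Finset ι) (w : J → ℝ) (hw : ∀ j ∈ S, 0 ≤ w j)
    (hX : ∀ j ∈ S, (X j ∩ Q).card ≤ p)
    (hZ : ∀ Z ⊆ Q, ∑ i ∈ Z, k i < c0 → ∑ j ∈ S with (X j ∩ Z).Nonempty, w j ≤ 1) :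
    ∑ j ∈ S, w j * ((X j ∩ Q).card : ℝ) ≤ 2 * p := by
  classical
  -- positive costs and weights everywhere
  set k' : ι → ℝ := fun i => if i ∈ Q then k i else 1 with hk'
  set w' : J → ℝ := fun j => if j ∈ S then w j else 0 with hw'
  have hkk : ∀ Z ⊆ Q, ∑ i ∈ Z, k' i = ∑ i ∈ Z, k i := fun Z hZQ =>
    sum_congr rfl fun i hi => by simp only [hk']; rw [if_pos (hZQ hi)]
  have hk1 : ∀ i, 0 < k' i := by
    intro i
    simp only [hk']
    split_ifs with h
    · exact hk i h
    · exact one_pos
  have hw1 : ∀ j, 0 ≤ w' j := by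
    intro j
    simp only [hw']
    split_ifs with h
    · exact hw j h
    · exact le_rfl
  have hww : ∑ j ∈ S, w j * ((X j ∩ Q).card : ℝ) = tot X w' S Q := by
    unfold tot
    exact sum_congr rfl fun j hj => by simp only [hw']; rw [if_pos hj]
  have hZ' : ∀ Z ⊆ Q, ∑ i ∈ Z, k' i < c0 → hit X w' S Z ≤ 1 := by
    intro Z hZQ h
    rw [hkk Z hZQ] at h
    refine le_trans (le_of_eq ?_) (hZ Z hZQ h)
    unfold hit
    exact sum_congr rfl fun j hj => by simp only [hw']; rw [if_pos (mem_filter.1 hj).1]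
  have hfit' : ∀ i ∈ Q, k' i < c0 := by
    intro i hi
    simp only [hk']; rw [if_pos hi]; exact hfit i hi
  have hK' : ∑ i ∈ Q, k' i ≤ p * c0 := by rw [hkk Q subset_rfl]; exact hK
  have hone : ∀ i ∈ Q, hit X w' S {i} ≤ 1 := by
    intro i hi
    exact hZ' {i} (singleton_subset_iff.2 hi) (by rw [sum_singleton]; exact hfit' i hi)
  rw [hww]
  have htriv := tot_le_card X w' S Q.card Q rfl hone
  rw [one_mul] at htriv
  have hp0 : (0 : ℝ) ≤ p := Nat.cast_nonneg p
  rcases Nat.lt_or_ge Q.card (2 * p + 1) with hN | hN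
  · have : (Q.card : ℝ) ≤ 2 * p := by exact_mod_cast (by omega : Q.card ≤ 2 * p)
    linarith
  rcases Nat.eq_zero_or_pos p with hpz | hp
  · -- `p = 0`
    have h0 : ∀ j ∈ S, (X j ∩ Q).card = 0 := fun j hj => by
      have := hX j hj; omega
    have : tot X w' S Q = 0 := by
      unfold tot
      exact sum_eq_zero fun j hj => by rw [h0 j hj]; simp
    rw [this, hpz]; simp
  have hc0 : 0 < c0 := by
    obtain ⟨i, hi⟩ : Q.Nonempty := card_pos.1 (by omega)
    exact (hk1 i).trans (hfit' i hi)
  -- the threshold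
  obtain ⟨i0, hi0, hi0max⟩ : ∃ i ∈ Q, p ≤ (Q.filter fun a => k' i ≤ k' a).card ∧
      (Q.filter fun a => k' i < k' a).card ≤ p := by
    have hne : (Q.filter fun i => p ≤ (Q.filter fun a => k' i ≤ k' a).card).Nonempty := by
      obtain ⟨i, hi, hmin⟩ := Q.exists_min_image k' (card_pos.1 (by omega))
      refine ⟨i, mem_filter.2 ⟨hi, ?_⟩⟩
      rw [filter_true_of_mem hmin]; omega
    obtain ⟨i, hi, hmax⟩ := exists_max_image _ k' hne
    rw [mem_filter] at hi
    refine ⟨i, hi.1, hi.2, ?_⟩
    by_contra hcon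
    push Not at hcon
    have hne2 : (Q.filter fun a => k' i < k' a).Nonempty := card_pos.1 (by omega)
    obtain ⟨a, ha, hamin⟩ := exists_min_image _ k' hne2
    rw [mem_filter] at ha
    have h1 : p ≤ (Q.filter fun b => k' a ≤ k' b).card := by
      refine hcon.le.trans (card_le_card fun b hb => ?_)
      rw [mem_filter] at hb ⊢
      exact ⟨hb.1, hamin b (mem_filter.2 hb)⟩
    have := hmax a (mem_filter.2 ⟨ha.1, h1⟩)
    linarith [ha.2]
  obtain ⟨hge, hgt⟩ := hi0max
  set x : ℝ := min (k' i0) (c0 / 2) with hx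
  have hx0 : 0 ≤ x := le_min (hk1 i0).le (by linarith)
  have hx2 : 2 * x ≤ c0 := by have := min_le_right (k' i0) (c0 / 2); linarith
  set b : ℝ := ((Q.filter fun a => x ≤ k' a).card : ℝ) with hb
  have hbp : (p : ℝ) ≤ b := by
    rw [hb]
    have : (Q.filter fun a => k' i0 ≤ k' a).card ≤ (Q.filter fun a => x ≤ k' a).card := by
      refine card_le_card fun a ha => ?_
      rw [mem_filter] at ha ⊢
      exact ⟨ha.1, (min_le_left _ _).trans ha.2⟩
    exact_mod_cast hge.trans this
  have hsplit : ∑ i ∈ Q, k' i = ∑ i ∈ Q.filter (fun i => k' i ≤ x), k' i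
      + ∑ i ∈ Q.filter (fun i => x < k' i), k' i := by
    rw [← sum_filter_add_sum_filter_not Q (fun i => k' i ≤ x)]
    simp only [not_le]
  have hbig : x * ((Q.filter fun i => x < k' i).card : ℝ)
      ≤ ∑ i ∈ Q.filter (fun i => x < k' i), k' i := by
    have := card_nsmul_le_sum (Q.filter fun i => x < k' i) k' x
      (fun i hi => (mem_filter.1 hi).2.le)
    rw [nsmul_eq_mul] at this
    linarith
  have key := state k' hk1 hp hbp X w' hw1 Q.card Q S c0 0 1 0 rfl (by omega) hX
    (by linarith) le_rfl hfit' zero_le_one hZ' le_rfl (fun i _ => (hk1 i).le) hx0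
    (by
      set n : ℝ := ((Q.filter fun i => x < k' i).card : ℝ) with hn
      rcases le_total (k' i0) (c0 / 2) with h | h
      · have hxe : x = k' i0 := min_eq_left h
        have hnp : n ≤ p := by
          rw [hn, hxe]; exact_mod_cast hgt
        nlinarith
      · have hxe : x = c0 / 2 := min_eq_right h
        rw [hxe] at hbig hsplit ⊢
        nlinarith)
    (by rw [sub_self, zero_mul, add_zero, zero_add]; exact hK') le_rfl
  rw [sub_zero, one_mul] at key
  have hcx : 0 < c0 - x := by linarith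
  rw [mul_div_assoc, div_self hcx.ne', mul_one] at key
  linarith

/-- **Lemma K**, integer costs `1 ≤ k i ≤ s`, total cost `≤ p (s + 1)`. -/
theorem lemmaK_nat (Q : Finset ι) (k : ι → ℕ) (p s : ℕ) (hk : ∀ i ∈ Q, 1 ≤ k i)
    (hfit : ∀ i ∈ Q, k i ≤ s) (hK : ∑ i ∈ Q, k i ≤ p * (s + 1))
    (S : Finset J) (X : J → Finset ι) (w : J → ℝ) (hw : ∀ j ∈ S, 0 ≤ w j)
    (hX : ∀ j ∈ S, (X j ∩ Q).card ≤ p)
    (hZ : ∀ Z ⊆ Q, ∑ i ∈ Z, k i ≤ s → ∑ j ∈ S with (X j ∩ Z).Nonempty, w j ≤ 1) :
    ∑ j ∈ S, w j * ((X j ∩ Q).card : ℝ) ≤ 2 * p := by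
  refine lemmaK Q (fun i => (k i : ℝ)) p (s + 1) (fun i hi => ?_) (fun i hi => ?_) ?_ S X w hw hX
    (fun Z hZQ h => hZ Z hZQ ?_)
  · exact_mod_cast hk i hi
  · exact_mod_cast Nat.lt_succ_of_le (hfit i hi)
  · exact_mod_cast hK
  · have : ∑ i ∈ Z, k i < s + 1 := by exact_mod_cast h
    omega

end Pool.Agent.Helper7.LK
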